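import Mathlib
import Pool.Agent.H32.DCArith

open Filter Topology Set
open scoped ENNReal ZeroAtInfty

namespace Pool.Agent.Results.MP_39b2af_an.ExactDC

/-- lower `q`-density of `A`, valued in `[0, ∞]` -/
noncomputable def ld (q : ℝ) (A : Set ℕ) : ℝ≥0∞ :=
  liminf (fun n : ℕ => ((A ∩ {j : ℕ | 1 ≤ j ∧ (j : ℝ) ≤ (n : ℝ) ^ q}).ncard : ℝ≥0∞) / n) atTop

section defs
variable {𝕜 X : Type} [RCLike 𝕜] [NormedAddCommGroup X] [NormedSpace 𝕜 X]

/-- `S` is an uncountable `l`-distributionally scrambled set of `T` -/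
def Scr (l : ℝ) (T : X →L[𝕜] X) (S : Set X) : Prop :=
  ¬ S.Countable ∧ ∃ σ : ℝ, 0 < σ ∧ ∀ x ∈ S, ∀ y ∈ S, x ≠ y →
    ld (1 / l) {j | ‖(T ^ j) x - (T ^ j) y‖ < σ} = 0 ∧
    ∀ ε : ℝ, 0 < ε → ld (1 / l) {j | ε < ‖(T ^ j) x - (T ^ j) y‖} = 0

/-- on the sequence space `X` with coordinates `co`, some weighted backward shift is densely
`l`-distributionally chaotic and not `l'`-distributionally chaotic for `0 < l' < l` -/
def Exact (co : X → ℕ → 𝕜) (l : ℝ) : Prop :=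
  ∃ (ω : ℕ → ℝ) (T : X →L[𝕜] X), (∀ n, 0 < ω n) ∧ BddAbove (range ω) ∧
    (∀ x n, co (T x) n = ω (n + 1) * co x (n + 1)) ∧
    (∃ S, Dense S ∧ Scr l T S) ∧ ∀ l', 0 < l' → l' < l → ¬ ∃ S, Scr l' T S

end defs

lemma fin (q : ℝ) (n : ℕ) : {j : ℕ | 1 ≤ j ∧ (j : ℝ) ≤ (n : ℝ) ^ q}.Finite :=
  (Set.finite_Iic ⌊(n : ℝ) ^ q⌋₊).subset fun _ h => Nat.le_floor h.2

lemma ld_zero {q : ℝ} {A : Set ℕ} (a b : ℕ → ℕ) (ha : ∀ k, k < a k)
    (hb : ∀ c : ℕ, ∀ᶠ k in atTop, c * b k ≤ a k)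
    (h : ∀ᶠ k in atTop, ∀ j ∈ A, 1 ≤ j → (j : ℝ) ≤ (a k : ℝ) ^ q → j ≤ b k) : ld q A = 0 := by
  refine le_antisymm (le_of_forall_pos_le_add fun ε hε => ?_) zero_le
  rw [zero_add]
  obtain ⟨c, hc⟩ := ENNReal.exists_inv_nat_lt hε.ne'
  refine le_trans (liminf_le_of_frequently_le' ?_) hc.le
  have ht : Tendsto a atTop atTop := tendsto_atTop_mono (fun k => (ha k).le) tendsto_id
  refine ht.frequently (((hb c).and h).mono fun k hk => ?_).frequently
  have h1 : (A ∩ {j : ℕ | 1 ≤ j ∧ (j : ℝ) ≤ (a k : ℝ) ^ q}).ncard ≤ b k := by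
    have := Set.ncard_le_ncard (s := A ∩ {j : ℕ | 1 ≤ j ∧ (j : ℝ) ≤ (a k : ℝ) ^ q})
      (t := (Finset.Icc 1 (b k) : Set ℕ)) (fun j hj => by
        simpa using ⟨hj.2.1, hk.2 j hj.1 hj.2.1 hj.2.2⟩) (Finset.finite_toSet _)
    rw [Set.ncard_coe_finset] at this
    simpa using this
  have ha0 : (a k : ℝ≥0∞) ≠ 0 := by have := ha k; exact_mod_cast (by omega : a k ≠ 0)
  rw [ENNReal.div_le_iff ha0 (by simp)]
  rcases Nat.eq_zero_or_pos c with rfl | hc0
  · simp [ENNReal.top_mul ha0]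
  rw [mul_comm, ← div_eq_mul_inv, ENNReal.le_div_iff_mul_le (Or.inl (by exact_mod_cast hc0.ne'))
    (Or.inl (by simp))]
  exact_mod_cast (Nat.mul_le_mul_right c h1).trans (by rw [mul_comm]; exact hk.1)

lemma ld_pos {q : ℝ} {A : Set ℕ}
    (h : ∀ᶠ x : ℕ in atTop, ∃ a : ℕ, ∀ j, a < j → j ≤ a + x → j ∈ A ∧ (j : ℝ) ≤ (x : ℝ) ^ q) :
    ld q A ≠ 0 := by
  refine (lt_of_lt_of_le zero_lt_one (le_liminf_of_le (by isBoundedDefault) ?_)).ne'
  filter_upwards [h, eventually_gt_atTop 0] with x ⟨a, ha⟩ hx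
  have := Set.ncard_le_ncard (t := A ∩ {j : ℕ | 1 ≤ j ∧ (j : ℝ) ≤ (x : ℝ) ^ q})
    (s := (Finset.Ioc a (a + x) : Set ℕ)) (fun j hj => by
      simp only [Finset.coe_Ioc, mem_Ioc] at hj
      exact ⟨(ha j hj.1 hj.2).1, by omega, (ha j hj.1 hj.2).2⟩) ((fin q x).inter_of_right _)
  rw [Set.ncard_coe_finset] at this
  rw [ENNReal.le_div_iff_mul_le (Or.inl (by exact_mod_cast hx.ne')) (Or.inl (by simp)), one_mul]
  exact_mod_cast (by simpa using this)

open Pool.Agent.H32.DCArith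

section seqs
variable {q : ℝ} (D : Seqs q)

noncomputable def kk (n : ℕ) : ℕ := Nat.find (⟨n, D.kN n⟩ : ∃ k, n ≤ D.N k)

lemma kk_le {n k : ℕ} : kk D n ≤ k ↔ n ≤ D.N k :=
  ⟨fun h => (Nat.find_spec (⟨n, D.kN n⟩ : ∃ k, n ≤ D.N k)).trans (D.monoN h), fun h => Nat.find_le h⟩

lemma kk_mono : Monotone (kk D) := fun _ _ h => (kk_le D).2 (h.trans ((kk_le D).1 le_rfl))

noncomputable def W (n : ℕ) : ℝ := 2 ^ ((n : ℝ) / D.M (kk D n))

lemma W_pos (n : ℕ) : 0 < W D n := Real.rpow_pos_of_pos two_pos _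

lemma W_le {j : ℕ} (hj : j ≤ D.M (kk D j)) (n : ℕ) : W D (n + j) / W D n ≤ 2 := by
  rw [div_le_iff₀ (W_pos D n), W, W]
  rw [mul_comm, ← Real.rpow_add_one two_ne_zero]
  refine Real.rpow_le_rpow_of_exponent_le one_le_two ?_
  have h1 : (D.M (kk D n) : ℝ) ≤ D.M (kk D (n + j)) := by
    exact_mod_cast D.mono (kk_mono D (Nat.le_add_right _ _))
  have h2 : (j : ℝ) ≤ D.M (kk D (n + j)) := by
    exact_mod_cast hj.trans (D.mono (kk_mono D (Nat.le_add_left _ _)))
  have h3 : (0 : ℝ) < D.M (kk D n) := by exact_mod_cast D.one _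
  have h4 := div_le_div_of_nonneg_left (Nat.cast_nonneg n) h3 h1
  have h5 := (div_le_one (h3.trans_le h1)).2 h2
  push_cast
  rw [add_div]
  linarith

lemma inJ {j k : ℕ} (h1 : D.N k < j) (h2 : j ≤ D.M (k + 1)) : j ≤ D.M (kk D j) :=
  h2.trans (D.mono (by by_contra h; exact absurd ((kk_le D).1 (by omega : kk D j ≤ k)) (by omega)))

noncomputable def uc (n : ℕ) : ℝ :=
  if D.r (kk D n) * D.M (kk D n) ≤ n then (kk D n + 1) / W D n else 0

lemma uc_le (n : ℕ) : |uc D n| ≤ 1 / ((n : ℝ) + 1) ^ 2 := by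
  unfold uc
  split_ifs with h
  · have hW := W_pos D n
    rw [abs_of_nonneg (by positivity), div_le_div_iff₀ hW (by positivity), one_mul]
    have h1 : (((kk D n + 1) * (n + 1) ^ 2 : ℕ) : ℝ) ≤ ((2 ^ D.r (kk D n) : ℕ) : ℝ) := by
      exact_mod_cast le_trans (Nat.mul_le_mul_left _ (Nat.pow_le_pow_left
        (Nat.succ_le_succ ((kk_le D).1 le_rfl)) 2)) (D.hr _)
    push_cast at h1
    refine h1.trans ?_
    rw [W, ← Real.rpow_natCast]
    refine Real.rpow_le_rpow_of_exponent_le one_le_two ?_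
    rw [le_div_iff₀ (by exact_mod_cast D.one _)]
    exact_mod_cast h
  · rw [abs_zero]; positivity

lemma uc_eq {j k : ℕ} (h1 : D.r (k + 1) * D.M (k + 1) < j) (h2 : j ≤ D.N (k + 1)) :
    W D j * uc D j = k + 2 := by
  have h3 : kk D j = k + 1 := by
    refine le_antisymm ((kk_le D).2 h2) ?_
    by_contra h
    have := (kk_le D).1 (by omega : kk D j ≤ k)
    have := D.two k
    have := Nat.mul_le_mul_right (D.M (k + 1)) (D.r1 (k + 1))
    omega
  have := W_pos D j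
  rw [uc, h3, if_pos h1.le]
  push_cast
  field_simp
  ring

end seqs

theorem general {𝕜 X : Type} [RCLike 𝕜] [NormedAddCommGroup X] [NormedSpace 𝕜 X]
    (co : X →ₗ[𝕜] ℕ → 𝕜) (inj : Function.Injective co) (le_norm : ∀ x n, ‖co x n‖ ≤ ‖x‖)
    (dom : ∀ x (y : ℕ → 𝕜) (j : ℕ), (∀ n, ‖y n‖ ≤ 2 * ‖co x (n + j)‖) → ∃ z, co z = y ∧ ‖z‖ ≤ 2 * ‖x‖)
    (dense : Dense {x | ∃ N, ∀ n, N ≤ n → co x n = 0})
    (l1 : ∀ y : ℕ → 𝕜, Summable (fun n => ‖y n‖) → ∃ z, co z = y)
    {l : ℝ} (hl : 0 < l) (hl1 : l ≤ 1) : Exact (fun x => co x) l := by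
  obtain ⟨D⟩ := seqs (one_le_one_div hl hl1)
  have hd : ∀ j, j ≤ D.M (kk D j) → ∀ x, ∃ z, co z = (fun n => ((W D (n + j) / W D n : ℝ) : 𝕜) *
      co x (n + j)) ∧ ‖z‖ ≤ 2 * ‖x‖ := fun j hj x => dom x _ j fun n => by
    rw [norm_mul, RCLike.norm_ofReal, abs_of_pos (div_pos (W_pos _ _) (W_pos _ _))]
    exact mul_le_mul_of_nonneg_right (W_le D hj n) (norm_nonneg _)
  choose T0 hT0 using hd 1 (D.one _)
  let T : X →L[𝕜] X := LinearMap.mkContinuous
    { toFun := T0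
      map_add' := fun x y => inj (by
        rw [map_add, (hT0 _).1, (hT0 _).1, (hT0 _).1]; ext n; simp [mul_add])
      map_smul' := fun c x => inj (by
        rw [map_smul, (hT0 _).1, (hT0 _).1]; ext n; simp [mul_left_comm]) } 2 fun x => (hT0 x).2
  have hT : ∀ x n, co (T x) n = ((W D (n + 1) / W D n : ℝ) : 𝕜) * co x (n + 1) := fun x n =>
    congrFun (hT0 x).1 n
  have hp : ∀ j x n, co ((T ^ j) x) n = ((W D (n + j) / W D n : ℝ) : 𝕜) * co x (n + j) := by
    intro j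
    induction j with
    | zero => intro x n; simp [(W_pos D n).ne']
    | succ j ih =>
      intro x n
      rw [pow_succ', mul_apply_eq_comp, hT, ih, ← mul_assoc, ← RCLike.ofReal_mul,
        add_assoc, add_comm 1 j]
      congr 2
      have := W_pos D n; have := W_pos D (n + 1)
      field_simp
  have kill : ∀ d N j, (∀ n, N ≤ n → co d n = 0) → N ≤ j → (T ^ j) d = 0 := fun d N j h hj =>
    inj (by ext n; rw [hp, h _ (by omega)]; simp)
  have small : ∀ z ε, 0 < ε → ∃ N, ∀ j, N ≤ j → j ≤ D.M (kk D j) → ‖(T ^ j) z‖ < ε := by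
    intro z ε hε
    obtain ⟨d, ⟨N, hN⟩, hz⟩ := dense.exists_dist_lt z (half_pos hε)
    refine ⟨N, fun j h1 h2 => ?_⟩
    obtain ⟨w, hw, hw'⟩ := hd j h2 (z - d)
    have : (T ^ j) z = w := by
      rw [← sub_zero ((T ^ j) z), ← kill d N j hN h1, ← map_sub]
      exact inj (by rw [hw]; ext n; rw [hp])
    rw [this, dist_eq_norm] at *
    linarith
  have Nt : ∀ N, ∀ᶠ k in atTop, N ≤ D.N k := fun N =>
    (eventually_ge_atTop N).mono fun k hk => hk.trans (D.kN k)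
  have part2 : ∀ z ε, 0 < ε → ld (1 / l) {j | ε < ‖(T ^ j) z‖} = 0 := by
    intro z ε hε
    obtain ⟨N, hN⟩ := small z ε hε
    refine ld_zero D.m D.N D.km (fun c => (eventually_ge_atTop c).mono fun k hk =>
      (Nat.mul_le_mul_right _ hk).trans (D.h6' k)) ((Nt N).mono fun k hk j hj _ h2 => ?_)
    by_contra hc
    exact absurd (hN j (by omega) (inJ D (k := k) (by omega) (by exact_mod_cast h2.trans (D.h6 k))))
      (not_lt.2 (le_of_lt hj))
  obtain ⟨u, hu⟩ := l1 (fun n => (uc D n : 𝕜)) (by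
    refine Summable.of_nonneg_of_le (fun _ => norm_nonneg _) (fun n => ?_)
      ((summable_nat_add_iff 1).2 (Real.summable_one_div_nat_pow.2 one_lt_two))
    rw [RCLike.norm_ofReal]; push_cast; exact uc_le D n)
  have part1 : ∀ d N (t : ℝ), (∀ n, N ≤ n → co d n = 0) → t ≠ 0 →
      ld (1 / l) {j | ‖(T ^ j) (d + (t : 𝕜) • u)‖ < 1} = 0 := by
    intro d N t hN ht
    obtain ⟨c, hc⟩ := exists_nat_gt (1 / |t|)
    refine ld_zero D.n (fun k => D.r k * D.M k) D.kn D.h5 ?_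
    filter_upwards [eventually_ge_atTop (c + N + 1)] with k hk j hj _ h2
    obtain ⟨k, rfl⟩ : ∃ k', k = k' + 1 := ⟨k - 1, by omega⟩
    by_contra h3
    have h4 : j ≤ D.N (k + 1) := by rw [D.hN]; exact Nat.le_floor h2
    have h5 := uc_eq D (not_le.1 h3) h4
    have h6 : N ≤ j := by
      have := D.two k
      have := D.kN k
      have := Nat.mul_le_mul_right (D.M (k + 1)) (D.r1 (k + 1))
      omega
    have h7 := le_norm ((T ^ j) (d + (t : 𝕜) • u)) 0
    have h8 : W D 0 = 1 := by simp [W]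
    rw [hp, zero_add, map_add, map_smul, Pi.add_apply, hN j h6, zero_add, Pi.smul_apply, hu, h8,
      div_one, smul_eq_mul, mul_left_comm, ← RCLike.ofReal_mul, h5, ← RCLike.ofReal_mul,
      RCLike.norm_ofReal, abs_mul, abs_of_pos (by positivity : (0 : ℝ) < k + 2)] at h7
    have h9 : (c : ℝ) ≤ k := by exact_mod_cast (by omega : c ≤ k)
    have ht' := abs_pos.2 ht
    rw [div_lt_iff₀ ht'] at hc
    have : ‖(T ^ j) (d + (t : 𝕜) • u)‖ < 1 := hj
    nlinarith
  have sep : TopologicalSpace.IsSeparable {x | ∃ N, ∀ n, N ≤ n → co x n = 0} := by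
    have he : ∀ i : ℕ, ∃ z, co z = Pi.single i 1 := fun i => l1 _ (summable_of_hasFiniteSupport
      ((Set.finite_singleton i).subset fun n hn => by by_contra h; simp_all [Pi.single_apply]))
    choose e he using he
    refine ((Set.countable_range e).isSeparable.span (R := 𝕜)).mono ?_
    rintro x ⟨N, hN⟩
    have : x = ∑ i ∈ Finset.range N, co x i • e i := inj (by
      ext n
      simp only [map_sum, map_smul, he, Finset.sum_apply, Pi.smul_apply, Pi.single_apply,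
        smul_eq_mul, mul_ite, mul_one, mul_zero, Finset.sum_ite_eq, Finset.mem_range]
      split_ifs with h
      · rfl
      · exact hN n (by omega))
    rw [this]
    exact Submodule.sum_mem _ fun i _ => Submodule.smul_mem _ _ (Submodule.subset_span ⟨i, rfl⟩)
  obtain ⟨C, hC1, hC2, hC3⟩ := sep.exists_countable_dense_subset
  obtain ⟨d, rfl⟩ := hC2.exists_eq_range (by
    by_contra h
    rw [not_nonempty_iff_eq_empty] at h
    simpa [h] using hC3 (a := 0) ⟨0, by simp⟩)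
  have hdC : Dense (range d) := by
    rw [← dense_closure]; exact dense.mono hC3
  let f : ℝ → X := fun t => d (Nat.unpair ⌊1 / t⌋₊).1 + (t : 𝕜) • u
  have hf : ∀ s t, s ≠ t → ld (1 / l) {j | ‖(T ^ j) (f s) - (T ^ j) (f t)‖ < 1} = 0 := by
    intro s t hst
    obtain ⟨N, hN⟩ := hC1 ⟨(Nat.unpair ⌊1 / s⌋₊).1, rfl⟩
    obtain ⟨N', hN'⟩ := hC1 ⟨(Nat.unpair ⌊1 / t⌋₊).1, rfl⟩
    rw [← part1 (d (Nat.unpair ⌊1 / s⌋₊).1 - d (Nat.unpair ⌊1 / t⌋₊).1) (N + N') (s - t)
      (fun n hn => by rw [map_sub, Pi.sub_apply, hN n (by omega), hN' n (by omega), sub_zero])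
      (sub_ne_zero.2 hst)]
    congr 1
    ext j
    simp only [mem_ofPred_eq, f]
    rw [← map_sub, RCLike.ofReal_sub, sub_smul, add_sub_add_comm]
  have big : ∀ q : ℝ, 1 / l < q → ∀ z σ, 0 < σ → ld q {j | ‖(T ^ j) z‖ < σ} ≠ 0 := by
    intro q hq z σ hσ
    have hq1 : 1 < q := (one_le_one_div hl hl1).trans_lt hq
    obtain ⟨N, hN⟩ := small z σ hσ
    obtain ⟨K, hK⟩ := eventually_atTop.1 ((D.h7 q hq).and (Nt N))
    have ht : Tendsto (fun x : ℕ => (x : ℝ) ^ (q - 1)) atTop atTop :=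
      (tendsto_rpow_atTop (by linarith)).comp tendsto_natCast_atTop_atTop
    apply ld_pos
    filter_upwards [ht.eventually_ge_atTop 2, eventually_ge_atTop (2 * D.N K + 3)] with x h1 h2
    have hx : (0 : ℝ) < x := by exact_mod_cast (by omega : 0 < x)
    have h3 : 2 * (x : ℝ) ≤ (x : ℝ) ^ q := by
      have : (x : ℝ) ^ q = (x : ℝ) ^ (q - 1) * x := by rw [Real.rpow_sub_one hx.ne']; field_simp
      rw [this]; exact mul_le_mul_of_nonneg_right h1 hx.le
    have hex : ∃ k, (x : ℝ) ^ q ≤ 2 * D.N k + 2 := by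
      obtain ⟨k, hk⟩ := exists_nat_ge ((x : ℝ) ^ q)
      have : (k : ℝ) ≤ D.N k := by exact_mod_cast D.kN k
      exact ⟨k, by have : (0 : ℝ) ≤ k := k.cast_nonneg; linarith⟩
    classical
    have h4 := Nat.find_spec hex
    have h5 : K < Nat.find hex := by
      rw [Nat.lt_find_iff]
      intro m hm
      have : (D.N m : ℝ) ≤ D.N K := by exact_mod_cast D.monoN hm
      have : ((2 * D.N K + 3 : ℕ) : ℝ) ≤ x := by exact_mod_cast h2
      push_cast at this
      push Not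
      linarith
    obtain ⟨k, hk⟩ : ∃ k, Nat.find hex = k + 1 := ⟨Nat.find hex - 1, by omega⟩
    have h6 := not_le.1 (Nat.find_min hex (by omega : k < Nat.find hex))
    rw [hk] at h4
    have h7 := (hK (k + 1) (by omega)).1 x h4
    have h8 := (hK k (by omega)).2
    have h9 := D.two k
    refine ⟨D.N k, fun j a1 a2 => ⟨hN j (by omega) (inJ D a1 (by omega)), ?_⟩⟩
    have : (j : ℝ) ≤ D.N k + x := by exact_mod_cast a2
    linarith
  refine ⟨fun n => W D n / W D (n - 1), T, fun n => div_pos (W_pos _ _) (W_pos _ _), ⟨2, ?_⟩, hT,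
    ⟨range f, ?_, fun hc => ?_, 1, one_pos, ?_⟩, ?_⟩
  · rintro _ ⟨n, rfl⟩
    rcases n with _ | n
    · simp [W]
    · exact W_le D (D.one _) n
  · rw [← dense_closure]
    refine hdC.mono ?_
    rintro _ ⟨i, rfl⟩
    have h1 : Tendsto (fun m : ℕ => (1 / (Nat.pair i m : ℝ))) atTop (𝓝 0) :=
      tendsto_one_div_atTop_nhds_zero_nat.comp
        (tendsto_atTop_mono (fun m => Nat.right_le_pair i m) tendsto_id)
    have h2 := (((RCLike.continuous_ofReal (K := 𝕜)).tendsto 0).comp h1).smul_const u |>.const_add (d i)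
    simp only [RCLike.ofReal_zero, zero_smul, add_zero] at h2
    refine mem_closure_of_tendsto h2 (Eventually.of_forall fun m => ⟨1 / (Nat.pair i m : ℝ), ?_⟩)
    simp [f]
  · have hi : Function.Injective f := fun s t h => by
      by_contra hst
      have h1 := hf s t hst
      refine absurd h1 (ld_pos ?_)
      filter_upwards [eventually_ge_atTop 1] with x hx
      refine ⟨0, fun j _ a2 => ⟨by simp [h], ?_⟩⟩
      have a3 : (1 : ℝ) ≤ x := by exact_mod_cast hx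
      have a4 : (j : ℝ) ≤ x := by exact_mod_cast (by omega : j ≤ x)
      simpa using a4.trans (by simpa using Real.rpow_le_rpow_of_exponent_le a3 (one_le_one_div hl hl1))
    rw [← image_univ] at hc
    exact Cardinal.not_countable_real (Set.countable_of_injective_of_countable_image hi.injOn hc)
  · rintro _ ⟨s, rfl⟩ _ ⟨t, rfl⟩ hst
    refine ⟨hf s t fun h => hst (by rw [h]), fun ε hε => ?_⟩
    simpa only [map_sub] using part2 (f s - f t) ε hε
  · rintro l' h0 h1 ⟨S, hS, σ, hσ, h⟩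
    obtain ⟨x, hx, y, hy, hxy⟩ : S.Nontrivial := by
      by_contra hn
      exact hS (Set.not_nontrivial_iff.1 hn).finite.countable
    refine big (1 / l') (one_div_lt_one_div_of_lt h0 h1) (x - y) σ hσ ?_
    simpa only [map_sub] using (h x hx y hy hxy).1

theorem result (𝕜 : Type) [RCLike 𝕜] (l : ℝ) (hl : 0 < l) (hl1 : l ≤ 1) :
    (∀ (p : ℝ≥0∞) [Fact (1 ≤ p)], p ≠ ∞ →
      Exact (fun (x : lp (fun _ : ℕ => 𝕜) p) (n : ℕ) => x n) l) ∧
    Exact (fun (x : C₀(ℕ, 𝕜)) (n : ℕ) => x n) l := by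
  constructor
  · intro p hp hp'
    have hp0 : p ≠ 0 := (zero_lt_one.trans_le hp.out).ne'
    have hp1 : 0 < p.toReal := ENNReal.toReal_pos hp0 hp'
    refine general (𝕜 := 𝕜) (X := lp (fun _ : ℕ => 𝕜) p) ⟨⟨fun x n => x n, fun _ _ => rfl⟩, fun _ _ => rfl⟩
      (fun x y h => lp.ext h) (fun x n => lp.norm_apply_le_norm hp0 x n) (fun x y j h => ?_)
      (fun x => ?_) (fun y hy => ⟨⟨y, (memℓp_gen (p := 1) (by simpa using hy)).of_exponent_ge hp.out⟩, rfl⟩)
      hl hl1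
    · have h1 := lp.hasSum_norm hp1 x
      have h2 : ∀ s : Finset ℕ, ∑ i ∈ s, ‖y i‖ ^ p.toReal ≤ (2 * ‖x‖) ^ p.toReal := by
        intro s
        rw [Real.mul_rpow zero_le_two (norm_nonneg _)]
        calc _ ≤ ∑ i ∈ s, 2 ^ p.toReal * ‖x (i + j)‖ ^ p.toReal := Finset.sum_le_sum fun i _ => by
              rw [← Real.mul_rpow zero_le_two (norm_nonneg _)]
              exact Real.rpow_le_rpow (norm_nonneg _) (h i) hp1.le
          _ ≤ _ := by
              rw [← Finset.mul_sum]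
              refine mul_le_mul_of_nonneg_left ?_ (by positivity)
              rw [← Finset.sum_image (f := fun i => ‖x i‖ ^ p.toReal) (g := fun i => i + j)
                (fun a _ b _ h => by simpa using h)]
              exact sum_le_hasSum _ (fun _ _ => by positivity) h1
      exact ⟨⟨y, memℓp_gen' h2⟩, rfl, lp.norm_le_of_forall_sum_le hp1 (by positivity) h2⟩
    · refine mem_closure_of_tendsto (lp.hasSum_single hp' x).tendsto_sum_nat
        (Eventually.of_forall fun N => ⟨N, fun n hn => ?_⟩)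
      show (∑ i ∈ Finset.range N, lp.single p i (x i) : lp (fun _ : ℕ => 𝕜) p) n = 0
      rw [lp.coeFn_sum, Finset.sum_apply]
      refine Finset.sum_eq_zero fun i hi => lp.single_apply_ne _ _ _ ?_
      have := Finset.mem_range.1 hi
      omega
  · have le_norm : ∀ (f : C₀(ℕ, 𝕜)) n, ‖f n‖ ≤ ‖f‖ := fun f n => f.toBCF.norm_coe_le_norm n
    have norm_le : ∀ (f : C₀(ℕ, 𝕜)) (C : ℝ), 0 ≤ C → (∀ n, ‖f n‖ ≤ C) → ‖f‖ ≤ C := fun f C hC h =>
      (BoundedContinuousFunction.norm_le (f := f.toBCF) hC).2 h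
    have mk : ∀ y : ℕ → 𝕜, Tendsto y atTop (𝓝 0) → ∃ z : C₀(ℕ, 𝕜), ∀ n, z n = y n := fun y h =>
      ⟨⟨⟨y, continuous_of_discreteTopology⟩, by rwa [cocompact_eq_cofinite, Nat.cofinite_eq_atTop]⟩,
        fun _ => rfl⟩
    have td : ∀ f : C₀(ℕ, 𝕜), Tendsto f atTop (𝓝 0) := fun f => by
      have := f.zero_at_infty'
      rwa [cocompact_eq_cofinite, Nat.cofinite_eq_atTop] at this
    refine general (𝕜 := 𝕜) (X := C₀(ℕ, 𝕜)) ⟨⟨fun x n => x n, fun _ _ => rfl⟩, fun _ _ => rfl⟩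
      (fun x y h => ZeroAtInftyContinuousMap.ext (congrFun h)) le_norm (fun x y j h => ?_)
      (Metric.dense_iff.2 fun x ε hε => ?_) (fun y hy => ?_) hl hl1
    · obtain ⟨z, hz⟩ := mk y (squeeze_zero_norm h (by
        simpa using ((td x).comp (tendsto_add_atTop_nat j)).norm.const_mul 2))
      exact ⟨z, funext hz, norm_le _ _ (by positivity) fun n => (hz n ▸ h n).trans
        (mul_le_mul_of_nonneg_left (le_norm x _) zero_le_two)⟩
    · obtain ⟨N, hN⟩ := eventually_atTop.1 (NormedAddGroup.tendsto_nhds_zero.1 (td x) _ (half_pos hε))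
      obtain ⟨z, hz⟩ := mk (fun n => if n < N then x n else 0) (tendsto_const_nhds.congr'
        ((eventually_ge_atTop N).mono fun n hn => by simp [not_lt.2 hn]))
      refine ⟨z, ?_, N, fun n hn => (hz n).trans (if_neg (not_lt.2 hn))⟩
      rw [Metric.mem_ball, dist_eq_norm]
      refine (norm_le _ (ε / 2) (by positivity) fun n => ?_).trans_lt (half_lt_self hε)
      rw [ZeroAtInftyContinuousMap.sub_apply, hz]
      split_ifs with h
      · simp [half_pos hε |>.le]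
      · simpa using (hN n (not_lt.1 h)).le
    · obtain ⟨z, hz⟩ := mk y (tendsto_zero_iff_norm_tendsto_zero.2 hy.tendsto_atTop_zero)
      exact ⟨z, funext hz⟩

end Pool.Agent.Results.MP_39b2af_an.ExactDC
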